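import Mathlib
import Pool.Agent.W894.EIP.IP

/-!
The hyperreals are real closed, uncountable and non-archimedean.
-/

set_option autoImplicit false

namespace Pool.Agent.R466.DC

open Polynomial Filter Pool.Agent.W894.EIP

/-- sequences to hyperreals as a ring homomorphism -/
noncomputable def sq : (ℕ → ℝ) →+* Hyperreal :=
  (Germ.coeRingHom (hyperfilter ℕ : Filter ℕ) : (ℕ → ℝ) →+* Germ (hyperfilter ℕ : Filter ℕ) ℝ)

theorem sq_surj : Function.Surjective sq := Quot.exists_rep

theorem sq_eq_iff {f g : ℕ → ℝ} : sq f = sq g ↔ ∀ᶠ n in hyperfilter ℕ, f n = g n :=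
  Germ.coe_eq

theorem sq_lt_iff {f g : ℕ → ℝ} : sq f < sq g ↔ ∀ᶠ n in hyperfilter ℕ, f n < g n :=
  Germ.coe_lt

theorem ivp_hyper : IVP Hyperreal := by
  intro f a b hab hneg
  obtain ⟨α, rfl⟩ := sq_surj a
  obtain ⟨β, rfl⟩ := sq_surj b
  choose g hg using fun i => sq_surj (f.coeff i)
  set N := f.natDegree
  have hev : ∀ ξ : ℕ → ℝ, f.eval (sq ξ) =
      sq (fun j => ∑ i ∈ Finset.range (N + 1), g i j * ξ j ^ i) := by
    intro ξ
    rw [eval_eq_sum_range]
    have : (fun j => ∑ i ∈ Finset.range (N + 1), g i j * ξ j ^ i) =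
        ∑ i ∈ Finset.range (N + 1), g i * ξ ^ i := by
      funext j
      simp
    rw [this, map_sum]
    refine Finset.sum_congr rfl fun i _ => ?_
    rw [map_mul, map_pow, hg]
  rw [hev, hev, ← map_mul, ← map_zero sq, sq_lt_iff] at hneg
  rw [sq_lt_iff] at hab
  have hroot : ∀ᶠ j in hyperfilter ℕ, ∃ c : ℝ, α j < c ∧ c < β j ∧
      ∑ i ∈ Finset.range (N + 1), g i j * c ^ i = 0 := by
    filter_upwards [hneg, hab] with j h1 h2
    set F : ℝ → ℝ := fun c => ∑ i ∈ Finset.range (N + 1), g i j * c ^ i with hF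
    have hcont : Continuous F := by
      rw [hF]
      fun_prop
    have h1' : F (α j) * F (β j) < 0 := h1
    rcases mul_neg_iff.1 h1' with ⟨h3, h4⟩ | ⟨h3, h4⟩
    · obtain ⟨c, hc, hc0⟩ := intermediate_value_Ioo' h2.le hcont.continuousOn
        (show (0 : ℝ) ∈ Set.Ioo (F (β j)) (F (α j)) from ⟨h4, h3⟩)
      exact ⟨c, hc.1, hc.2, hc0⟩
    · obtain ⟨c, hc, hc0⟩ := intermediate_value_Ioo h2.le hcont.continuousOn
        (show (0 : ℝ) ∈ Set.Ioo (F (α j)) (F (β j)) from ⟨h3, h4⟩)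
      exact ⟨c, hc.1, hc.2, hc0⟩
  classical
  set γ : ℕ → ℝ := fun j => if h : ∃ c : ℝ, α j < c ∧ c < β j ∧
      ∑ i ∈ Finset.range (N + 1), g i j * c ^ i = 0 then h.choose else 0 with hγ
  refine ⟨sq γ, ?_, ?_, ?_⟩
  · rw [sq_lt_iff]
    filter_upwards [hroot] with j hj
    rw [hγ]
    simp only [dif_pos hj]
    exact hj.choose_spec.1
  · rw [sq_lt_iff]
    filter_upwards [hroot] with j hj
    rw [hγ]
    simp only [dif_pos hj]
    exact hj.choose_spec.2.1
  · rw [hev, ← map_zero sq, sq_eq_iff]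
    filter_upwards [hroot] with j hj
    rw [hγ]
    simp only [dif_pos hj]
    exact hj.choose_spec.2.2

instance : IsRealClosed Hyperreal := isRealClosed_of_IVP ivp_hyper

theorem uncountable_hyper : ¬ Countable Hyperreal := by
  intro h
  have hinj : Function.Injective (Hyperreal.ofReal) := fun x y h => Hyperreal.coe_eq_coe.1 h
  have : Countable ℝ := hinj.countable
  exact not_countable this

end Pool.Agent.R466.DC
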