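import Mathlib

/-!
A countable ordered field of infinite transcendence degree has a dense subfield over which it is
algebraic and over which the Fermat cubic has only algebraic-number points.
-/

set_option autoImplicit false
set_option linter.unusedSectionVars false

namespace Pool.Agent.R466.DC

open Polynomial IntermediateField

variable {P : Type*} [Field P]

/-- all points of the Fermat cubic over `F` have algebraic first coordinate -/
def Phi [CharZero P] (F : Subfield P) : Prop :=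
  ∀ x ∈ F, ∀ y ∈ F, x ^ 3 + y ^ 3 = 1 → IsAlgebraic ℚ x

theorem flt_lift [CharZero P] (F : Subfield P) (hF : Phi F) (u : P) (hu : Transcendental F u) :
    Phi (Subfield.closure ((F : Set P) ∪ {u})) := by
  classical
  have hle : Subfield.closure ((F : Set P) ∪ {u}) ≤ (adjoin F {u}).toSubfield := by
    rw [Subfield.closure_le]
    rintro x (hx | hx)
    · exact (adjoin F {u}).algebraMap_mem ⟨x, hx⟩
    · rw [Set.mem_singleton_iff.1 hx]
      exact mem_adjoin_simple_self F u
  have key : ∀ x ∈ Subfield.closure ((F : Set P) ∪ {u}), ∃ r s : F[X], s ≠ 0 ∧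
      x = aeval u r / aeval u s := by
    intro x hx
    obtain ⟨r, s, hrs⟩ := (mem_adjoin_simple_iff F x).1 (hle hx)
    by_cases hs : s = 0
    · refine ⟨0, 1, one_ne_zero, ?_⟩
      rw [hrs, hs]
      simp
    · exact ⟨r, s, hs, hrs⟩
  have hinj : ∀ p : F[X], aeval u p = 0 → p = 0 := by
    intro p hp
    by_contra h
    exact hu ⟨p, h, hp⟩
  intro x hx y hy hxy
  obtain ⟨r₁, s₁, hs₁, h₁⟩ := key x hx
  obtain ⟨r₂, s₂, hs₂, h₂⟩ := key y hy
  have e₁ : aeval u s₁ ≠ 0 := fun h => hs₁ (hinj _ h)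
  have e₂ : aeval u s₂ ≠ 0 := fun h => hs₂ (hinj _ h)
  set a := r₁ * s₂ with ha
  set b := r₂ * s₁ with hb
  set c := s₁ * s₂ with hc
  have hc0 : c ≠ 0 := mul_ne_zero hs₁ hs₂
  have hxa : x * aeval u c = aeval u a := by
    rw [h₁, ha, hc, map_mul, map_mul]
    field_simp
  have hyb : y * aeval u c = aeval u b := by
    rw [h₂, hb, hc, map_mul, map_mul]
    field_simp
  have hcu : aeval u c ≠ 0 := fun h => hc0 (hinj _ h)
  have heq : a ^ 3 + b ^ 3 = c ^ 3 := by
    rw [← sub_eq_zero]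
    apply hinj
    rw [map_sub, map_add, map_pow, map_pow, map_pow, ← hxa, ← hyb]
    linear_combination (aeval u c) ^ 3 * hxy
  by_cases ha0 : a = 0
  · have : x = 0 := by
      rw [ha0, map_zero] at hxa
      exact (mul_eq_zero.1 hxa).resolve_right hcu
    rw [this]
    exact isAlgebraic_zero
  by_cases hb0 : b = 0
  · have hy0 : y = 0 := by
      rw [hb0, map_zero] at hyb
      exact (mul_eq_zero.1 hyb).resolve_right hcu
    rw [hy0] at hxy
    refine ⟨X ^ 3 - 1, ?_, ?_⟩
    · exact (monic_X_pow_sub_C (1 : ℚ) (by norm_num)).ne_zero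
    · simp only [map_sub, map_pow, aeval_X, map_one]
      linear_combination hxy
  have h3 : ((3 : ℕ) : F) ≠ 0 := by
    have : ((3 : ℕ) : P) ≠ 0 := by norm_num
    intro h
    apply this
    have := congrArg (fun z : F => (z : P)) h
    simp at this
  obtain ⟨d, a', b', c', ⟨ea, eb, ec⟩, ua, ub, uc⟩ :=
    fermatLastTheoremWith'_polynomial (k := F) (le_refl 3) h3 a b c ha0 hb0 hc0 heq
  obtain ⟨α, hα, hα'⟩ := Polynomial.isUnit_iff.1 ua
  obtain ⟨β, hβ, hβ'⟩ := Polynomial.isUnit_iff.1 ub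
  obtain ⟨γ, hγ, hγ'⟩ := Polynomial.isUnit_iff.1 uc
  have hd : aeval u d ≠ 0 := by
    intro h
    apply hc0
    rw [ec, hinj _ h, mul_zero]
  have hγ0 : (γ : P) ≠ 0 := by
    have := hγ.ne_zero
    intro h
    exact this (Subtype.ext h)
  have hx' : x = (α : P) / (γ : P) := by
    rw [eq_div_iff hγ0]
    rw [ea, ec, ← hα', ← hγ', map_mul, map_mul, aeval_C, aeval_C] at hxa
    have : (x * (γ : P)) * aeval u d = (α : P) * aeval u d := by
      rw [← mul_assoc] at hxa
      exact hxa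
    exact mul_right_cancel₀ hd this
  have hy' : y = (β : P) / (γ : P) := by
    rw [eq_div_iff hγ0]
    rw [eb, ec, ← hβ', ← hγ', map_mul, map_mul, aeval_C, aeval_C] at hyb
    have : (y * (γ : P)) * aeval u d = (β : P) * aeval u d := by
      rw [← mul_assoc] at hyb
      exact hyb
    exact mul_right_cancel₀ hd this
  refine hF x ?_ y ?_ hxy
  · rw [hx']
    exact F.div_mem α.2 γ.2
  · rw [hy']
    exact F.div_mem β.2 γ.2

/-- the elements algebraic over the field generated by `s` -/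
noncomputable def cl [CharZero P] (s : Set P) : Subfield P :=
  (algebraicClosure (adjoin ℚ s) P).toSubfield

theorem mem_cl [CharZero P] {s : Set P} {x : P} : x ∈ cl s ↔ IsAlgebraic (adjoin ℚ s) x :=
  mem_algebraicClosure_iff

theorem cl_mono [CharZero P] {s t : Set P} (h : s ⊆ t) : cl s ≤ cl t := by
  intro x hx
  rw [mem_cl] at hx ⊢
  obtain ⟨p, hp, h0⟩ := hx
  have hle : adjoin ℚ s ≤ adjoin ℚ t := adjoin.mono ℚ s t h
  refine ⟨p.map (IntermediateField.inclusion hle).toRingHom, ?_, ?_⟩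
  · rw [Ne, Polynomial.map_eq_zero_iff]
    · exact hp
    · exact (IntermediateField.inclusion hle).injective
  · rw [aeval_def, eval₂_map]
    rw [aeval_def] at h0
    exact h0

theorem subset_cl [CharZero P] (s : Set P) : s ⊆ cl s := by
  intro x hx
  rw [SetLike.mem_coe, mem_cl]
  exact isAlgebraic_algebraMap (⟨x, subset_adjoin ℚ s hx⟩ : adjoin ℚ s)

theorem alg_mem_cl [CharZero P] (s : Set P) {x : P} (hx : IsAlgebraic ℚ x) : x ∈ cl s := by
  rw [mem_cl]
  exact hx.tower_top _

/-- algebraic over a subfield of `cl s` implies in `cl s` -/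
theorem mem_cl_of_algebraic [CharZero P] (s : Set P) (F : Subfield P) (hF : F ≤ cl s) {x : P}
    (hx : IsAlgebraic F x) : x ∈ cl s := by
  have h1 : IsAlgebraic (algebraicClosure (adjoin ℚ s) P) x := by
    obtain ⟨p, hp, h0⟩ := hx
    let φ : F →+* algebraicClosure (adjoin ℚ s) P :=
      { toFun := fun z => ⟨z.1, hF z.2⟩
        map_one' := rfl
        map_mul' := fun _ _ => rfl
        map_zero' := rfl
        map_add' := fun _ _ => rfl }
    refine ⟨p.map φ, ?_, ?_⟩
    · rw [Ne, Polynomial.map_eq_zero_iff]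
      · exact hp
      · exact φ.injective
    · rw [aeval_def, eval₂_map]
      rw [aeval_def] at h0
      exact h0
  rw [mem_cl]
  exact h1.restrictScalars _

section step

variable [LinearOrder P] [IsStrictOrderedRing P]

/-- a proper subfield misses some element of every interval -/
theorem exists_not_mem (A : Subfield P) (hA : A ≠ ⊤) (a b : P) (hab : a < b) :
    ∃ u, a < u ∧ u < b ∧ u ∉ A := by
  by_contra hcon
  push Not at hcon
  apply hA
  set δ := (b - a) / 2 with hδ
  have hδ0 : 0 < δ := by rw [hδ]; linarith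
  have hc : (a + b) / 2 ∈ A := hcon _ (by linarith) (by linarith)
  have hsmall : ∀ x, |x| < δ → x ∈ A := by
    intro x hx
    rw [abs_lt] at hx
    have h1 : (a + b) / 2 + x ∈ A := hcon _ (by rw [hδ] at hx; linarith [hx.1])
      (by rw [hδ] at hx; linarith [hx.2])
    have h2 := A.sub_mem h1 hc
    rwa [add_sub_cancel_left] at h2
  have he : δ / 2 ∈ A := hsmall _ (by rw [abs_of_pos (by linarith)]; linarith)
  rw [eq_top_iff]
  intro x _
  by_cases hx : |x| < δ
  · exact hsmall x hx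
  · push Not at hx
    have hx0 : x ≠ 0 := by
      intro h
      rw [h, abs_zero] at hx
      linarith
    have h1 : (δ / 2) * (δ / 2) / x ∈ A := by
      apply hsmall
      rw [abs_div, abs_of_pos (show (0 : P) < δ / 2 * (δ / 2) by positivity),
        div_lt_iff₀ (lt_of_lt_of_le hδ0 hx)]
      nlinarith
    have h2 : x = (δ / 2) * (δ / 2) / ((δ / 2) * (δ / 2) / x) := by
      field_simp
    rw [h2]
    exact A.div_mem (A.mul_mem he he) h1

/-- the invariant of the recursion -/
def Inv (F : Subfield P) : Prop := Phi F ∧ ∃ s : Set P, s.Finite ∧ F ≤ cl s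

theorem step (hP : ¬ FinTrdeg ℚ P) (F : Subfield P) (hF : Inv F) (a b : P) (hab : a < b) :
    ∃ F' : Subfield P, F ≤ F' ∧ Inv F' ∧ ∃ u ∈ F', a < u ∧ u < b := by
  obtain ⟨hΦ, s, hs, hFs⟩ := hF
  have hne : cl s ≠ ⊤ := by
    intro h
    apply hP
    refine ⟨adjoin ℚ s, ?_, ?_⟩
    · have := hs.to_subtype
      exact fg_adjoin_of_finite hs
    · refine ⟨fun x => ?_⟩
      rw [← mem_cl, h]
      trivial
  obtain ⟨u, h1, h2, h3⟩ := exists_not_mem (cl s) hne a b hab
  have hu : Transcendental F u := fun h => h3 (mem_cl_of_algebraic s F hFs h)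
  refine ⟨Subfield.closure ((F : Set P) ∪ {u}), ?_, ⟨flt_lift F hΦ u hu, s ∪ {u},
    hs.union (Set.finite_singleton u), ?_⟩, u, Subfield.subset_closure (Or.inr rfl), h1, h2⟩
  · intro x hx
    exact Subfield.subset_closure (Or.inl hx)
  · rw [Subfield.closure_le]
    rintro x (hx | hx)
    · exact cl_mono Set.subset_union_left (hFs hx)
    · exact subset_cl _ (Or.inr hx)

theorem exists_K [Countable P] (hP : ¬ FinTrdeg ℚ P) : ∃ K : Subfield P,
    (∀ x, IsAlgebraic ℚ x → x ∈ K) ∧ Phi K ∧ (∀ x : P, IsAlgebraic K x) ∧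
      ∀ a b : P, a < b → ∃ u ∈ K, a < u ∧ u < b := by
  classical
  -- the start
  set F0 : Subfield P := cl (∅ : Set P) with hF0
  have hcl0 : ∀ x ∈ F0, IsAlgebraic ℚ x := by
    intro x hx
    rw [hF0, mem_cl] at hx
    obtain ⟨p, hp, h0⟩ := hx
    have : adjoin ℚ (∅ : Set P) = ⊥ := adjoin_empty ℚ P
    have hx' : IsAlgebraic (adjoin ℚ (∅ : Set P)) x := ⟨p, hp, h0⟩
    rw [this] at hx'
    exact hx'.restrictScalars ℚ
  have hInv0 : Inv F0 := ⟨fun x hx _ _ _ => hcl0 x hx, ∅, Set.finite_empty, le_refl _⟩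
  obtain ⟨e, he⟩ : ∃ e : ℕ → P × P, Function.Surjective e := exists_surjective_nat _
  -- the recursion
  have hstep : ∀ (F : {F : Subfield P // Inv F}) (p : P × P), ∃ F' : {F : Subfield P // Inv F},
      F.1 ≤ F'.1 ∧ (p.1 < p.2 → ∃ u ∈ F'.1, p.1 < u ∧ u < p.2) := by
    intro F p
    by_cases hp : p.1 < p.2
    · obtain ⟨F', h1, h2, h3⟩ := step hP F.1 F.2 p.1 p.2 hp
      exact ⟨⟨F', h2⟩, h1, fun _ => h3⟩
    · exact ⟨F, le_refl _, fun h => absurd h hp⟩
  choose nx hnx1 hnx2 using hstep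
  let G : ℕ → {F : Subfield P // Inv F} := fun n => Nat.rec ⟨F0, hInv0⟩ (fun n F => nx F (e n)) n
  have hG : ∀ n, G (n + 1) = nx (G n) (e n) := fun n => rfl
  have hmono : Monotone (fun n => (G n).1) := by
    apply monotone_nat_of_le_succ
    intro n
    rw [hG]
    exact hnx1 _ _
  set Fω : Subfield P := ⨆ n, (G n).1 with hFω
  have hmemω : ∀ x, x ∈ Fω ↔ ∃ n, x ∈ (G n).1 := by
    intro x
    rw [hFω]
    exact Subfield.mem_iSup_of_directed hmono.directed_le
  have hΦω : Phi Fω := by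
    intro x hx y hy hxy
    obtain ⟨n, hn⟩ := (hmemω x).1 hx
    obtain ⟨m, hm⟩ := (hmemω y).1 hy
    exact (G (max n m)).2.1 x (hmono (le_max_left n m) hn) y (hmono (le_max_right n m) hm) hxy
  -- Zorn
  obtain ⟨K, hωK, hK⟩ := zorn_le_nonempty₀ {F : Subfield P | Phi F} (by
    intro c hc hchain y hy
    refine ⟨sSup c, ?_, fun z hz => le_sSup hz⟩
    have hdir : DirectedOn (· ≤ ·) c := hchain.directedOn
    intro x hx z hz hxz
    obtain ⟨A, hA, hxA⟩ := (Subfield.mem_sSup_of_directedOn ⟨y, hy⟩ hdir).1 hx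
    obtain ⟨B, hB, hzB⟩ := (Subfield.mem_sSup_of_directedOn ⟨y, hy⟩ hdir).1 hz
    obtain ⟨C, hC, hAC, hBC⟩ := hdir A hA B hB
    exact hc hC x (hAC hxA) z (hBC hzB) hxz) Fω hΦω
  refine ⟨K, ?_, hK.1, ?_, ?_⟩
  · intro x hx
    apply hωK
    rw [hmemω]
    exact ⟨0, alg_mem_cl _ hx⟩
  · intro x
    by_contra hx
    have h1 := flt_lift K hK.1 x hx
    have h2 : K ≤ Subfield.closure ((K : Set P) ∪ {x}) := fun y hy =>
      Subfield.subset_closure (Or.inl hy)
    have h3 := hK.2 h1 h2
    have h4 : x ∈ K := h3 (Subfield.subset_closure (Or.inr rfl))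
    exact hx (isAlgebraic_algebraMap (⟨x, h4⟩ : K))
  · intro a b hab
    obtain ⟨n, hn⟩ := he (a, b)
    have h1 := hnx2 (G n) (e n)
    rw [hn] at h1
    obtain ⟨u, hu, h2, h3⟩ := h1 hab
    refine ⟨u, hωK ((hmemω u).2 ⟨n + 1, ?_⟩), h2, h3⟩
    rw [hG, hn]
    exact hu

end step

end Pool.Agent.R466.DC
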