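import Mathlib
import Pool.Agent.R466.DC.Hyp
import Pool.Agent.R466.DC.Sub

/-!
A countable non-archimedean real closed field of infinite transcendence degree.
-/

set_option autoImplicit false
set_option linter.unusedSectionVars false

namespace Pool.Agent.R466.DC

open Polynomial IntermediateField Cardinal Pool.Agent.W894.EIP

theorem countable_adjoin {P : Type} [Field P] [CharZero P] {s : Set P} (hs : s.Countable) :
    Countable (adjoin ℚ s) := by
  rw [← Cardinal.mk_le_aleph0_iff]
  refine (cardinalMk_adjoin_le ℚ s).trans ?_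
  rw [sup_le_iff, sup_le_iff]
  refine ⟨⟨?_, ?_⟩, le_refl _⟩
  · exact Cardinal.mk_le_aleph0
  · rw [Cardinal.le_aleph0_iff_set_countable]
    exact hs

theorem countable_cl {P : Type} [Field P] [CharZero P] {s : Set P} (hs : s.Countable) :
    Countable (cl s) := by
  have := countable_adjoin hs
  have h := Algebraic.countable (adjoin ℚ s) P
  have h2 : {x : P | IsAlgebraic (adjoin ℚ s) x} = (cl s : Set P) := by
    ext x
    exact mem_cl.symm
  rw [h2] at h
  exact h.to_subtype

theorem not_finTrdeg_hyper : ¬ FinTrdeg ℚ Hyperreal := by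
  rintro ⟨E, ⟨t, ht⟩, hE⟩
  apply uncountable_hyper
  have hcE : Countable E := by
    rw [← ht]
    exact countable_adjoin t.countable_toSet
  have h := Algebraic.countable E Hyperreal
  have h2 : {x : Hyperreal | IsAlgebraic E x} = Set.univ := by
    ext x
    simp only [Set.mem_ofPred_eq, Set.mem_univ, iff_true]
    exact hE.isAlgebraic x
  rw [h2] at h
  exact Set.countable_univ_iff.1 h

theorem exists_indep : ∃ f : ℕ → Hyperreal, AlgebraicIndependent ℚ f := by
  obtain ⟨B, hB⟩ := exists_isTranscendenceBasis ℚ Hyperreal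
  have hinf : Infinite B := by
    rw [← not_finite_iff_infinite]
    intro hfin
    exact not_finTrdeg_hyper (FinTrdeg.of_isTranscendenceBasis hB)
  exact ⟨fun n => (Infinite.natEmbedding B n : Hyperreal),
    hB.1.comp _ (Infinite.natEmbedding B).injective⟩

/-- intermediate values pass to relatively algebraically closed subfields -/
theorem ivp_cl {P : Type} [Field P] [LinearOrder P] [IsStrictOrderedRing P] (h : IVP P)
    (s : Set P) : IVP (cl s) := by
  intro f a b hab hneg
  have hf : f ≠ 0 := by
    rintro rfl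
    simp at hneg
  have hev : ∀ z : cl s, (f.map (cl s).subtype).eval (z : P) = ((f.eval z : cl s) : P) := by
    intro z
    rw [show (z : P) = (cl s).subtype z from rfl, eval_map_apply]
    rfl
  obtain ⟨c, h1, h2, h3⟩ := h (f.map (cl s).subtype) (a : P) (b : P) hab (by
    rw [hev, hev]
    exact_mod_cast hneg)
  have hc : c ∈ cl s := by
    refine mem_cl_of_algebraic s (cl s) le_rfl ⟨f, hf, ?_⟩
    rw [aeval_def, ← eval_map]
    exact h3
  refine ⟨⟨c, hc⟩, h1, h2, ?_⟩
  apply Subtype.ext
  rw [← hev ⟨c, hc⟩, h3]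
  rfl

theorem exists_P : ∃ P : Subfield Hyperreal, Countable P ∧ IsRealClosed P ∧ ¬ FinTrdeg ℚ P ∧
    ∃ w : P, ∀ n : ℕ, (n : P) < w := by
  obtain ⟨f, hf⟩ := exists_indep
  set S : Set Hyperreal := Set.range f ∪ {Hyperreal.omega} with hS
  have hSc : S.Countable := (Set.countable_range f).union (Set.countable_singleton _)
  refine ⟨cl S, countable_cl hSc, isRealClosed_of_IVP (ivp_cl ivp_hyper S), ?_,
    ⟨Hyperreal.omega, subset_cl S (Or.inr rfl)⟩, ?_⟩
  · intro hfin
    have hmem : ∀ n, f n ∈ cl S := fun n => subset_cl S (Or.inl ⟨n, rfl⟩)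
    have hind : AlgebraicIndependent ℚ (fun n => (⟨f n, hmem n⟩ : cl S)) := by
      have : f = (fun x => ((cl S).subtype.toRatAlgHom x)) ∘ fun n => (⟨f n, hmem n⟩ : cl S) := rfl
      rw [this] at hf
      exact AlgebraicIndependent.of_comp _ hf
    have := finite_of_algebraicIndependent hind
    exact not_finite ℕ
  · intro n
    have : ((n : ℝ) : Hyperreal) < Hyperreal.omega := Hyperreal.coe_lt_omega n
    exact_mod_cast this

end Pool.Agent.R466.DC
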